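import Pool.Agent.H773.LK.Spec

set_option autoImplicit false

namespace Pool.Agent.H34.LK

theorem low (m : ℕ) (hm : 1 ≤ m) (c : ℂ) (hc : |c.re| ≤ 1 / 2) :
    ((m : ℝ) + ‖c‖) / 4 ≤ ‖(m : ℂ) + c‖ := by
  have h1 := Complex.abs_re_le_norm ((m : ℂ) + c)
  have h2 := Complex.abs_im_le_norm ((m : ℂ) + c)
  have h3 := Complex.norm_le_abs_re_add_abs_im c
  simp only [Complex.add_re, Complex.natCast_re, Complex.add_im, Complex.natCast_im,
    zero_add] at h1 h2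
  have hm' : (1 : ℝ) ≤ m := by exact_mod_cast hm
  have h4 := abs_le.mp hc
  have h5 : (m : ℝ) + c.re ≤ |(m : ℝ) + c.re| := le_abs_self _
  by_cases h : ‖c‖ ≤ m
  · linarith
  · push Not at h
    linarith

theorem inv_low (m : ℕ) (hm : 1 ≤ m) (c : ℂ) (hc : |c.re| ≤ 1 / 2) :
    ‖((m : ℂ) + c)⁻¹‖ ≤ 4 / ((m : ℝ) + ‖c‖) := by
  have h1 := low m hm c hc
  have hm' : (1 : ℝ) ≤ m := by exact_mod_cast hm
  have h2 : 0 < (m : ℝ) + ‖c‖ := by have := norm_nonneg c; linarith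
  rw [norm_inv, inv_eq_one_div, div_le_div_iff₀ (by linarith) h2]
  linarith

theorem abel (q : ℂ) (b : ℕ → ℂ) (K : ℕ) : ∀ n : ℕ,
    (1 - q) * ∑ j ∈ Finset.range n, q ^ (K + j) * b j =
      q ^ K * b 0 - q ^ (K + n) * b n +
        ∑ j ∈ Finset.range n, q ^ (K + j + 1) * (b (j + 1) - b j) := by
  intro n
  induction n with
  | zero => simp
  | succ n ih =>
    rw [Finset.sum_range_succ, mul_add, ih, Finset.sum_range_succ]
    ring

theorem tail (q c : ℂ) (hq : ‖q‖ ≤ 1) (hq1 : q ≠ 1) (hc : |c.re| ≤ 1 / 2) (M n : ℕ) :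
    ‖∑ j ∈ Finset.range n, q ^ (M + 1 + j) * (((M + 1 + j : ℕ) : ℂ) + c)⁻¹‖ ≤
      24 / (‖1 - q‖ * (M + 1 + ‖c‖)) := by
  have hr : 0 < ‖1 - q‖ := norm_pos_iff.mpr (sub_ne_zero.mpr (Ne.symm hq1))
  have hc0 := norm_nonneg c
  have hM0 : (0 : ℝ) ≤ M := Nat.cast_nonneg M
  have hden : 0 < (M : ℝ) + 1 + ‖c‖ := by positivity
  set b : ℕ → ℂ := fun j => (((M + 1 + j : ℕ) : ℂ) + c)⁻¹ with hb
  have hb1 : ∀ j, ‖b j‖ ≤ 4 / ((M : ℝ) + 1 + j + ‖c‖) := by
    intro j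
    have := inv_low (M + 1 + j) (by omega) c hc
    rw [hb]
    refine this.trans (le_of_eq ?_)
    push_cast; ring
  have hb2 : ∀ j, ‖b j‖ ≤ 4 / ((M : ℝ) + 1 + ‖c‖) := by
    intro j
    refine (hb1 j).trans ?_
    apply div_le_div_of_nonneg_left (by norm_num) hden
    have : (0 : ℝ) ≤ j := Nat.cast_nonneg j
    linarith
  have hne : ∀ j : ℕ, (((M + 1 + j : ℕ) : ℂ) + c) ≠ 0 := by
    intro j h
    have := low (M + 1 + j) (by omega) c hc
    rw [h, norm_zero] at this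
    push_cast at this
    have hj : (0 : ℝ) ≤ j := Nat.cast_nonneg j
    linarith
  have hdiff : ∀ j, ‖b (j + 1) - b j‖ ≤
      16 * (1 / ((M : ℝ) + 1 + j + ‖c‖) - 1 / ((M : ℝ) + 1 + (j + 1 : ℕ) + ‖c‖)) := by
    intro j
    have hj : (0 : ℝ) ≤ j := Nat.cast_nonneg j
    have e1 : b (j + 1) - b j = -(b (j + 1) * b j) := by
      simp only [hb]
      have h1 := hne (j + 1)
      have h2 := hne j
      field_simp
      push_cast
      ring
    rw [e1, norm_neg, norm_mul]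
    have h1 := hb1 (j + 1)
    have h2 := hb1 j
    calc ‖b (j + 1)‖ * ‖b j‖ ≤ (4 / ((M : ℝ) + 1 + (j + 1 : ℕ) + ‖c‖)) *
          (4 / ((M : ℝ) + 1 + j + ‖c‖)) := by
          apply mul_le_mul h1 h2 (norm_nonneg _)
          positivity
      _ = 16 * (1 / ((M : ℝ) + 1 + j + ‖c‖) - 1 / ((M : ℝ) + 1 + (j + 1 : ℕ) + ‖c‖)) := by
          have h3 : (M : ℝ) + 1 + j + ‖c‖ ≠ 0 := by positivity
          have h4 : (M : ℝ) + 1 + (j + 1 : ℕ) + ‖c‖ ≠ 0 := by positivity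
          push_cast at h4 ⊢
          field_simp
          ring
  have hsum : ∑ j ∈ Finset.range n, ‖b (j + 1) - b j‖ ≤ 16 / ((M : ℝ) + 1 + ‖c‖) := by
    refine (Finset.sum_le_sum (fun j _ => hdiff j)).trans ?_
    rw [← Finset.mul_sum, Finset.sum_range_sub' (fun j : ℕ => 1 / ((M : ℝ) + 1 + j + ‖c‖)) n]
    have : 0 ≤ 1 / ((M : ℝ) + 1 + (n : ℝ) + ‖c‖) := by positivity
    simp only [Nat.cast_zero, add_zero]
    have e2 : 16 / ((M : ℝ) + 1 + ‖c‖) = 16 * (1 / ((M : ℝ) + 1 + ‖c‖)) := by ring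
    rw [e2]
    linarith
  have hpow : ∀ k : ℕ, ‖q ^ k‖ ≤ 1 := by
    intro k
    rw [norm_pow]
    exact pow_le_one₀ (norm_nonneg _) hq
  have hmain := abel q b (M + 1) n
  have hnorm : ‖1 - q‖ * ‖∑ j ∈ Finset.range n, q ^ (M + 1 + j) * b j‖ ≤
      24 / ((M : ℝ) + 1 + ‖c‖) := by
    rw [← norm_mul, hmain]
    have t1 : ‖q ^ (M + 1) * b 0‖ ≤ 4 / ((M : ℝ) + 1 + ‖c‖) := by
      rw [norm_mul]
      calc ‖q ^ (M + 1)‖ * ‖b 0‖ ≤ 1 * ‖b 0‖ :=
            mul_le_mul_of_nonneg_right (hpow _) (norm_nonneg _)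
        _ ≤ _ := by rw [one_mul]; exact hb2 0
    have t2 : ‖q ^ (M + 1 + n) * b n‖ ≤ 4 / ((M : ℝ) + 1 + ‖c‖) := by
      rw [norm_mul]
      calc ‖q ^ (M + 1 + n)‖ * ‖b n‖ ≤ 1 * ‖b n‖ :=
            mul_le_mul_of_nonneg_right (hpow _) (norm_nonneg _)
        _ ≤ _ := by rw [one_mul]; exact hb2 n
    have t3 : ‖∑ j ∈ Finset.range n, q ^ (M + 1 + j + 1) * (b (j + 1) - b j)‖ ≤
        16 / ((M : ℝ) + 1 + ‖c‖) := by
      refine (norm_sum_le _ _).trans (le_trans (Finset.sum_le_sum (fun j _ => ?_)) hsum)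
      rw [norm_mul]
      calc ‖q ^ (M + 1 + j + 1)‖ * ‖b (j + 1) - b j‖ ≤ 1 * ‖b (j + 1) - b j‖ :=
            mul_le_mul_of_nonneg_right (hpow _) (norm_nonneg _)
        _ = _ := one_mul _
    calc ‖q ^ (M + 1) * b 0 - q ^ (M + 1 + n) * b n +
        ∑ j ∈ Finset.range n, q ^ (M + 1 + j + 1) * (b (j + 1) - b j)‖
        ≤ (‖q ^ (M + 1) * b 0‖ + ‖q ^ (M + 1 + n) * b n‖) +
          ‖∑ j ∈ Finset.range n, q ^ (M + 1 + j + 1) * (b (j + 1) - b j)‖ :=
          (norm_add_le _ _).trans (add_le_add_left (norm_sub_le _ _) _)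
      _ ≤ (4 / ((M : ℝ) + 1 + ‖c‖) + 4 / ((M : ℝ) + 1 + ‖c‖)) + 16 / ((M : ℝ) + 1 + ‖c‖) :=
          add_le_add (add_le_add t1 t2) t3
      _ = 24 / ((M : ℝ) + 1 + ‖c‖) := by ring
  rw [le_div_iff₀ (by positivity)]
  rw [le_div_iff₀ hden] at hnorm
  calc ‖∑ j ∈ Finset.range n, q ^ (M + 1 + j) * b j‖ * (‖1 - q‖ * (M + 1 + ‖c‖))
      = ‖1 - q‖ * ‖∑ j ∈ Finset.range n, q ^ (M + 1 + j) * b j‖ * (M + 1 + ‖c‖) := by ring
    _ ≤ 24 := hnorm

theorem tail' (q c : ℂ) (hq : ‖q‖ ≤ 1) (hq1 : q ≠ 1) (hc : |c.re| ≤ 1 / 2) (M N' : ℕ) :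
    ‖∑ m ∈ Finset.Ioc M N', q ^ m / ((m : ℂ) + c)‖ ≤ 24 / (‖1 - q‖ * (M + 1 + ‖c‖)) := by
  by_cases h : N' ≤ M
  · rw [Finset.Ioc_eq_empty_of_le h, Finset.sum_empty, norm_zero]
    positivity
  · push Not at h
    have h1 := tail q c hq hq1 hc M (N' - M)
    have e1 : Finset.Ioc M N' = Finset.Ico (M + 1) (M + 1 + (N' - M)) := by
      ext x; simp only [Finset.mem_Ioc, Finset.mem_Ico]; omega
    rw [e1, Finset.sum_Ico_eq_sum_range]
    have e2 : M + 1 + (N' - M) - (M + 1) = N' - M := by omega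
    rw [e2]
    refine le_trans (le_of_eq ?_) h1
    congr 1

theorem head (q c : ℂ) (hq : ‖q‖ ≤ 1) (hc : |c.re| ≤ 1 / 2) (N M : ℕ) :
    ‖∑ m ∈ Finset.Ioc N M, q ^ m / ((m : ℂ) + c)‖ ≤
      ∑ m ∈ Finset.Ioc N M, 4 / ((m : ℝ) + ‖c‖) := by
  refine (norm_sum_le _ _).trans (Finset.sum_le_sum (fun m hm => ?_))
  have hm1 : 1 ≤ m := by have := (Finset.mem_Ioc.mp hm).1; omega
  rw [div_eq_mul_inv, norm_mul]
  calc ‖q ^ m‖ * ‖((m : ℂ) + c)⁻¹‖ ≤ 1 * ‖((m : ℂ) + c)⁻¹‖ := by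
        apply mul_le_mul_of_nonneg_right _ (norm_nonneg _)
        rw [norm_pow]
        exact pow_le_one₀ (norm_nonneg _) hq
    _ ≤ _ := by rw [one_mul]; exact inv_low m hm1 c hc

theorem harm (a : ℝ) (ha : 0 ≤ a) (N : ℕ) : ∀ n : ℕ,
    ∑ m ∈ Finset.Ioc N (N + n), 1 / ((m : ℝ) + a) ≤
      2 * Real.log (((N : ℝ) + n + 1 + a) / ((N : ℝ) + 1 + a)) := by
  intro n
  have hN : (0 : ℝ) ≤ N := Nat.cast_nonneg N
  induction n with
  | zero =>
    simp only [add_zero, Finset.Ioc_self, Finset.sum_empty, Nat.cast_zero]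
    rw [div_self (by positivity), Real.log_one, mul_zero]
  | succ n ih =>
    have hn : (0 : ℝ) ≤ n := Nat.cast_nonneg n
    rw [← add_assoc, Finset.sum_Ioc_succ_top (by omega)]
    have h1 : Real.log (((N : ℝ) + (n + 1 : ℕ) + 1 + a) / ((N : ℝ) + 1 + a)) =
        Real.log (((N : ℝ) + n + 1 + a) / ((N : ℝ) + 1 + a)) +
        Real.log (((N : ℝ) + (n + 1 : ℕ) + 1 + a) / ((N : ℝ) + n + 1 + a)) := by
      rw [← Real.log_mul (by positivity) (by positivity)]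
      congr 1
      have h3 : (N : ℝ) + n + 1 + a ≠ 0 := by positivity
      field_simp
    rw [h1]
    have h2 : 1 / (((N + n + 1 : ℕ) : ℝ) + a) ≤
        2 * Real.log (((N : ℝ) + (n + 1 : ℕ) + 1 + a) / ((N : ℝ) + n + 1 + a)) := by
      have h4 := Real.one_sub_inv_le_log_of_pos
        (x := ((N : ℝ) + (n + 1 : ℕ) + 1 + a) / ((N : ℝ) + n + 1 + a)) (by positivity)
      have h5 : 1 - (((N : ℝ) + (n + 1 : ℕ) + 1 + a) / ((N : ℝ) + n + 1 + a))⁻¹ =
          1 / ((N : ℝ) + n + 2 + a) := by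
        have h3 : (N : ℝ) + n + 1 + a ≠ 0 := by positivity
        have h6 : (N : ℝ) + (n + 1 : ℕ) + 1 + a ≠ 0 := by positivity
        have h7 : (N : ℝ) + n + 2 + a ≠ 0 := by positivity
        push_cast at h6 ⊢
        rw [inv_div]
        field_simp
        ring
      rw [h5] at h4
      refine le_trans ?_ (mul_le_mul_of_nonneg_left h4 (by norm_num))
      push_cast
      rw [mul_one_div, div_le_div_iff₀ (by positivity) (by positivity)]
      linarith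
    linarith

end Pool.Agent.H34.LK

namespace Pool.Agent.H773.LK

open Pool.Agent.H34.LK in
/-- summation by parts -/
theorem t_SER : S_SER := by
  refine ⟨120, by norm_num, ?_⟩
  intro q c hq hq1 hc N N'
  have hr : 0 < ‖1 - q‖ := norm_pos_iff.mpr (sub_ne_zero.mpr (Ne.symm hq1))
  have hc0 := norm_nonneg c
  have hN0 : (0 : ℝ) ≤ N := Nat.cast_nonneg N
  set r := ‖1 - q‖ with hrdef
  set w : ℝ := (N : ℝ) + 1 + ‖c‖ with hw
  have hw1 : 1 ≤ w := by rw [hw]; linarith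
  have hrw : 0 < r * w := by positivity
  have hpos : 0 < (r * w) ^ (-(1 / 4) : ℝ) := Real.rpow_pos_of_pos hrw _
  by_cases h : 1 ≤ r * w
  · have h1 := tail' q c hq hq1 hc N N'
    have h2 : (r * w)⁻¹ ≤ (r * w) ^ (-(1 / 4) : ℝ) := by
      rw [← Real.rpow_neg_one]
      exact Real.rpow_le_rpow_of_exponent_le h (by norm_num)
    refine h1.trans ?_
    rw [div_eq_mul_inv]
    have h3 : 24 * (r * w)⁻¹ ≤ 24 * (r * w) ^ (-(1 / 4) : ℝ) :=
      mul_le_mul_of_nonneg_left h2 (by norm_num)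
    exact h3.trans (by linarith)
  · push Not at h
    have hw2 : w < 1 / r := by
      rw [lt_div_iff₀ hr]; linarith
    set M := ⌊1 / r⌋₊ with hM
    have hM1 : (M : ℝ) ≤ 1 / r := Nat.floor_le (by positivity)
    have hM2 : 1 / r < (M : ℝ) + 1 := Nat.lt_floor_add_one _
    have hNM : N ≤ M := by
      apply Nat.le_floor
      linarith
    have hone : 1 ≤ (r * w) ^ (-(1 / 4) : ℝ) :=
      Real.one_le_rpow_of_pos_of_le_one_of_nonpos hrw h.le (by norm_num)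
    -- the head
    have hhead : ∑ m ∈ Finset.Ioc N M, 4 / ((m : ℝ) + ‖c‖) ≤ 96 * (r * w) ^ (-(1 / 4) : ℝ) := by
      have h1 := harm ‖c‖ hc0 N (M - N)
      have e1 : N + (M - N) = M := by omega
      rw [e1] at h1
      have e2 : (N : ℝ) + ((M - N : ℕ) : ℝ) = M := by
        have : ((N + (M - N) : ℕ) : ℝ) = M := by rw [e1]
        push_cast at this ⊢
        linarith
      rw [e2] at h1
      have h2 : ∑ m ∈ Finset.Ioc N M, 4 / ((m : ℝ) + ‖c‖) =
          4 * ∑ m ∈ Finset.Ioc N M, 1 / ((m : ℝ) + ‖c‖) := by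
        rw [Finset.mul_sum]
        exact Finset.sum_congr rfl (fun m _ => by ring)
      rw [h2]
      have hM0 : (0 : ℝ) ≤ M := Nat.cast_nonneg M
      have h3 : Real.log (((M : ℝ) + 1 + ‖c‖) / w) ≤ 12 * (r * w) ^ (-(1 / 4) : ℝ) := by
        have h4 : ((M : ℝ) + 1 + ‖c‖) / w ≤ 3 / (r * w) := by
          rw [div_le_div_iff₀ (by positivity) hrw]
          have h5 : (M : ℝ) + 1 + ‖c‖ ≤ 3 * (1 / r) := by
            have : ‖c‖ ≤ w := by rw [hw]; linarith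
            linarith
          calc ((M : ℝ) + 1 + ‖c‖) * (r * w) ≤ (3 * (1 / r)) * (r * w) :=
                mul_le_mul_of_nonneg_right h5 hrw.le
            _ = 3 * w := by field_simp
        have h6 : 0 < ((M : ℝ) + 1 + ‖c‖) / w := by positivity
        have h7 := Real.log_le_rpow_div (x := 3 / (r * w)) (by positivity)
          (ε := (1 / 4 : ℝ)) (by norm_num)
        have h8 : (3 / (r * w)) ^ (1 / 4 : ℝ) ≤ 3 * (r * w) ^ (-(1 / 4) : ℝ) := by
          rw [Real.div_rpow (by norm_num) hrw.le, Real.rpow_neg hrw.le, div_eq_mul_inv]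
          apply mul_le_mul_of_nonneg_right _ (by positivity)
          calc (3 : ℝ) ^ (1 / 4 : ℝ) ≤ 3 ^ (1 : ℝ) :=
                Real.rpow_le_rpow_of_exponent_le (by norm_num) (by norm_num)
            _ = 3 := Real.rpow_one 3
        calc Real.log (((M : ℝ) + 1 + ‖c‖) / w) ≤ Real.log (3 / (r * w)) :=
              Real.log_le_log h6 h4
          _ ≤ (3 / (r * w)) ^ (1 / 4 : ℝ) / (1 / 4) := h7
          _ ≤ 12 * (r * w) ^ (-(1 / 4) : ℝ) := by
              rw [div_le_iff₀ (by norm_num)]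
              linarith
      linarith
    by_cases hN' : N' ≤ M
    · refine (head q c hq hc N N').trans ?_
      have : ∑ m ∈ Finset.Ioc N N', 4 / ((m : ℝ) + ‖c‖) ≤
          ∑ m ∈ Finset.Ioc N M, 4 / ((m : ℝ) + ‖c‖) := by
        apply Finset.sum_le_sum_of_subset_of_nonneg
        · exact Finset.Ioc_subset_Ioc_right hN'
        · intro m _ _; positivity
      linarith
    · push Not at hN'
      have hsplit : ∑ m ∈ Finset.Ioc N N', q ^ m / ((m : ℂ) + c) =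
          ∑ m ∈ Finset.Ioc N M, q ^ m / ((m : ℂ) + c) +
          ∑ m ∈ Finset.Ioc M N', q ^ m / ((m : ℂ) + c) :=
        (Finset.sum_Ioc_consecutive _ hNM hN'.le).symm
      rw [hsplit]
      have h1 := (head q c hq hc N M).trans hhead
      have h2 := tail' q c hq hq1 hc M N'
      have h3 : 24 / (r * ((M : ℝ) + 1 + ‖c‖)) ≤ 24 := by
        rw [div_le_iff₀ (by positivity)]
        have h4 : 1 ≤ r * ((M : ℝ) + 1 + ‖c‖) := by
          have h5 : r * (1 / r) ≤ r * ((M : ℝ) + 1 + ‖c‖) :=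
            mul_le_mul_of_nonneg_left (by linarith) hr.le
          have h6 : r * (1 / r) = 1 := by field_simp
          linarith
        linarith
      refine (norm_add_le _ _).trans ?_
      linarith

end Pool.Agent.H773.LK

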